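import Pool.Agent.Helper22.TB.Goals

/-!
# Project TB (MP_74f661_nt), packet DOM
-/

set_option autoImplicit false

open Finset
open Pool.Agent.Helper22.TB

namespace Pool.Agent.Helper44.TB

theorem gDOM : G_DOM := by
  intro hABL hABM hPDC hSIG hPOS hSQ q₁ q₂ r hsf hcop hr0 hr1
  obtain ⟨hmul, hsum, hsc, _, hbd, hone, hPDU, _, _⟩ := hPDC
  obtain ⟨hsqm, _, hsqU⟩ := hSQ
  have hsf1 : Squarefree q₁ := Squarefree.squarefree_of_dvd (Dvd.intro _ rfl) hsf.1
  have hsf2 : Squarefree q₂ := Squarefree.squarefree_of_dvd (Dvd.intro_left _ rfl) hsf.1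
  have hc1 : Nat.Coprime q₁ 6 := Nat.Coprime.coprime_dvd_left (Dvd.intro _ rfl) hsf.2
  have hc2 : Nat.Coprime q₂ 6 := Nat.Coprime.coprime_dvd_left (Dvd.intro_left _ rfl) hsf.2
  have hodd : Odd q₁ := by
    rw [← Nat.not_even_iff_odd, even_iff_two_dvd]
    intro h
    have := Nat.Coprime.coprime_dvd_left h hc1
    norm_num at this
  have hadd : ∀ f g : ℕ → ℝ, PD f → PD g → PD (fun n => f n + g n) := by
    intro f g hf hg
    have h := hsum Bool univ (fun b => if b then f else g) (by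
      intro b _
      cases b
      · exact hg
      · exact hf)
    have e : (fun n => ∑ i ∈ (univ : Finset Bool), (if i then f else g) n) =
        fun n => f n + g n := by
      funext n
      rw [Fintype.sum_bool]
      rfl
    rw [e] at h
    exact h
  have hprime : ∀ p ∈ q₁.primeFactors, p.Prime ∧ 5 ≤ p := by
    intro p hp
    have h1 := Nat.prime_of_mem_primeFactors hp
    have h2 : Nat.Coprime p 6 := Nat.Coprime.coprime_dvd_left (Nat.dvd_of_mem_primeFactors hp) hc1
    refine ⟨h1, ?_⟩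
    by_contra h3
    have h4 : 2 ≤ p := h1.two_le
    interval_cases p
    · norm_num at h2
    · norm_num at h2
    · norm_num at h1
  have main : ∀ s : Finset ℕ, (∀ p ∈ s, p.Prime ∧ 5 ≤ p) → PD (fun g => ∏ p ∈ s, sm p g) ∧
      PD (fun g => ∏ p ∈ s, (if p ∣ g then 4 * (p : ℝ) / ((p : ℝ) - 2) ^ 2 else 0) -
        ∏ p ∈ s, sm p g) := by
    intro s
    induction s using Finset.induction_on with
    | empty =>
      intro _
      refine ⟨by simpa using hone, ?_⟩
      have h := hsc 0 _ le_rfl hone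
      simpa using h
    | insert p s hp ih =>
      intro h
      obtain ⟨i1, i2⟩ := ih fun p' hp' => h p' (mem_insert_of_mem hp')
      obtain ⟨hpp, hp5⟩ := h p (mem_insert_self p s)
      obtain ⟨s1, s2⟩ := hSIG p hpp hp5
      have s1' := hPDU p _ s1
      have s3 := hadd _ _ s1' s2
      have e3 : (fun g => sm p g + ((if p ∣ g then 4 * (p : ℝ) / ((p : ℝ) - 2) ^ 2 else 0) -
          sm p g)) = fun g => if p ∣ g then 4 * (p : ℝ) / ((p : ℝ) - 2) ^ 2 else 0 := by
        funext g
        ring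
      rw [e3] at s3
      constructor
      · have h1 := hmul _ _ s1' i1
        simpa [prod_insert hp] using h1
      · have h1 := hadd _ _ (hmul _ _ s3 i2) (hmul _ _ s2 i1)
        have e4 : (fun g => ∏ p ∈ insert p s, (if p ∣ g then 4 * (p : ℝ) / ((p : ℝ) - 2) ^ 2
            else 0) - ∏ p ∈ insert p s, sm p g) = fun g =>
            (if p ∣ g then 4 * (p : ℝ) / ((p : ℝ) - 2) ^ 2 else 0) *
              (∏ p ∈ s, (if p ∣ g then 4 * (p : ℝ) / ((p : ℝ) - 2) ^ 2 else 0) -
                ∏ p ∈ s, sm p g) +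
              ((if p ∣ g then 4 * (p : ℝ) / ((p : ℝ) - 2) ^ 2 else 0) - sm p g) *
                ∏ p ∈ s, sm p g := by
          funext g
          rw [prod_insert hp, prod_insert hp]
          ring
        rw [e4]
        exact h1
  obtain ⟨_, m2⟩ := main _ hprime
  have hF : ∀ g : ℕ, ∏ p ∈ q₁.primeFactors, (if p ∣ g then 4 * (p : ℝ) / ((p : ℝ) - 2) ^ 2
      else 0) = if q₁ ∣ g then CQ q₁ else 0 := by
    intro g
    by_cases hg : q₁ ∣ g
    · rw [if_pos hg]
      unfold CQ
      refine prod_congr rfl fun p hp => ?_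
      rw [if_pos ((Nat.dvd_of_mem_primeFactors hp).trans hg)]
    · rw [if_neg hg]
      have h1 : ∃ p ∈ q₁.primeFactors, ¬ p ∣ g := by
        by_contra h2
        push Not at h2
        apply hg
        rw [← Nat.prod_primeFactors_of_squarefree hsf1]
        exact Finset.prod_primes_dvd g (fun p hp => (Nat.prime_of_mem_primeFactors hp).prime) h2
      obtain ⟨p, hp, hpg⟩ := h1
      exact prod_eq_zero hp (if_neg hpg)
  have hq2 : PD (sq q₂) := hPDU _ _ (hsqU q₂ ⟨hsf2, hc2⟩)
  have hq12 : PD (sq (q₁ * q₂)) := hPDU _ _ (hsqU _ hsf)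
  have hf := hmul _ _ m2 hq2
  have h0 := hPOS _ r hr0 hr1 hf
  have hB2 := hbd _ hq2
  have hB12 := hbd _ hq12
  have hB3 : Bd (fun g => if q₁ ∣ g then sq q₂ g else 0) := by
    obtain ⟨B, hB⟩ := hB2
    refine ⟨B, fun g => ?_⟩
    by_cases hg : q₁ ∣ g
    · simp only [if_pos hg]
      exact hB g
    · simp only [if_neg hg, abs_zero]
      exact (abs_nonneg _).trans (hB 0)
  have hab := hABL Bool univ (fun b => if b then CQ q₁ else -1)
    (fun b => if b then (fun g => if q₁ ∣ g then sq q₂ g else 0) else sq (q₁ * q₂)) r hr0 hr1 (by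
      intro b _
      cases b
      · exact hB12
      · exact hB3)
  rw [Fintype.sum_bool] at hab
  simp only [Fintype.sum_bool, if_true, Bool.false_eq_true, if_false] at hab
  rw [hABM _ r q₁ hr0 hr1 hB2 hodd] at hab
  have e5 : (fun g => (∏ p ∈ q₁.primeFactors, (if p ∣ g then 4 * (p : ℝ) / ((p : ℝ) - 2) ^ 2
      else 0) - ∏ p ∈ q₁.primeFactors, sm p g) * sq q₂ g) =
      fun g => CQ q₁ * (if q₁ ∣ g then sq q₂ g else 0) + -1 * sq (q₁ * q₂) g := by
    funext g
    rw [hF g, hsqm q₁ q₂ g hcop]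
    change _ = CQ q₁ * (if q₁ ∣ g then sq q₂ g else 0) + -1 * ((∏ p ∈ q₁.primeFactors, sm p g) *
      sq q₂ g)
    by_cases hg : q₁ ∣ g
    · rw [if_pos hg, if_pos hg]
      ring
    · rw [if_neg hg, if_neg hg]
      ring
  rw [e5, hab] at h0
  linarith

end Pool.Agent.Helper44.TB
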