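import Pool.Agent.Helper76.TB.GoalsT
import Pool.Agent.Helper88.BFT.PthRun

/-!
# Project TB (MP_74f661_nt), packet U-PTHB
-/

set_option autoImplicit false

open Finset Filter Topology

namespace Pool.Agent.Helper44.TB

open Pool.Agent.Helper90.Twin (Ps Gz Xz XX sig sieveSys sig_of_next sig_of_no_next Gz_pos)
open Pool.Agent.Helper60.BFT (run chi Pair mT root delta len)
open Pool.Agent.Helper88.BFT (root_pow_le lt_root_pow root_tendsto)
open Pool.Agent.Helper76.TB

/-! ## The weighted mean is at most one -/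

theorem abs_sig_le {X : ℕ → ℝ} (hX : ∀ k, X k = 0 ∨ X k = 1) (H t : ℕ) : |sig X H t| ≤ 1 := by
  classical
  by_cases h : ∃ i, 0 < i ∧ i ≤ H ∧ X (t + i) = 1
  · obtain ⟨h1, h2, h3⟩ := Nat.find_spec h
    rw [sig_of_next h1 h2 h3]
    · rw [abs_pow, abs_neg, abs_one, one_pow]
    · intro i hi hig
      have h4 := Nat.find_min h hig
      rcases hX (t + i) with h5 | h5
      · exact h5
      · exact absurd ⟨hi, by omega, h5⟩ h4
  · rw [sig_of_no_next]
    · rw [abs_zero]
      exact zero_le_one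
    · intro i hi hiH
      rcases hX (t + i) with h5 | h5
      · exact h5
      · exact absurd ⟨i, hi, hiH, h5⟩ h

theorem abs_DD_le (z : ℕ) : |DD z| ≤ 1 := by
  have hs := sieveSys z
  have hQ : (0 : ℝ) < ((∏ p ∈ Ps z, p : ℕ) : ℝ) := hs.Q_pos
  have h1 := hs.avg_one 0
  have h2 : |PA z sg| ≤ Gz z := by
    have h3 : PA z sg = (∑ t ∈ range (∏ p ∈ Ps z, p), Xz z t * sig (Xz z) (HH z) t) /
        ((∏ p ∈ Ps z, p : ℕ) : ℝ) := rfl
    have h4 : (∑ t ∈ range (∏ p ∈ Ps z, p), Xz z t) / ((∏ p ∈ Ps z, p : ℕ) : ℝ) = Gz z := h1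
    rw [h3, ← h4, abs_div, abs_of_pos hQ]
    refine div_le_div_of_nonneg_right ?_ hQ.le
    refine (abs_sum_le_sum_abs _ _).trans (sum_le_sum fun t _ => ?_)
    have h5 : 0 ≤ Xz z t := hs.XX_nonneg t
    rw [abs_mul, abs_of_nonneg h5]
    exact mul_le_of_le_one_right h5 (abs_sig_le (fun k => hs.XX_zero_one k) _ _)
  rw [DD, abs_div, abs_of_pos (Gz_pos z), div_le_one (Gz_pos z)]
  exact h2

theorem mT_nonneg (K : ℕ) (Z : ℕ → ℕ) (r : ℕ) : 0 ≤ mT K Z r := by
  unfold mT
  have h1 := (Gz_pos (Z (r ^ K))).le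
  have h2 : (0 : ℝ) ≤ len K r := Nat.cast_nonneg _
  positivity

theorem abs_DW_le (Z : ℕ → ℕ) (R : ℕ) (hW : 0 < WW Z R) : |DW Z R| ≤ 1 := by
  rw [DW, abs_div, abs_of_pos hW, div_le_one hW]
  refine (abs_sum_le_sum_abs _ _).trans (sum_le_sum fun r _ => ?_)
  rw [abs_mul, abs_of_nonneg (mT_nonneg 4 Z r)]
  exact mul_le_of_le_one_right (mT_nonneg 4 Z r) (abs_DD_le _)

/-! ## Logarithms -/

theorem tendsto_log_nat : Tendsto (fun n : ℕ => Real.log n) atTop atTop :=
  Real.tendsto_log_atTop.comp tendsto_natCast_atTop_atTop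

theorem tendsto_l2 : Tendsto l2 atTop atTop :=
  Real.tendsto_log_atTop.comp tendsto_log_nat

theorem vv_ev : ∀ᶠ R : ℕ in atTop, 0 < vv R ∧ vv R ≤ 1 := by
  filter_upwards [tendsto_log_nat.eventually_gt_atTop 0, tendsto_l2.eventually_gt_atTop 0]
    with R h1 h2
  have h3 : l2 R ≤ Real.log R := by
    have := Real.log_le_sub_one_of_pos h1
    unfold l2
    linarith
  have h4 : 0 < l2 R / Real.log R := div_pos h2 h1
  have h5 : l2 R / Real.log R ≤ 1 := (div_le_one h1).2 h3
  unfold vv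
  exact ⟨by positivity, pow_le_one₀ h4.le h5⟩

theorem T1 : Tendsto (fun x : ℕ => Real.log x / Real.log (root 4 x)) atTop (𝓝 4) := by
  have hR := root_tendsto 4 (by norm_num)
  have hlog : Tendsto (fun x : ℕ => Real.log (root 4 x)) atTop atTop := tendsto_log_nat.comp hR
  have h0 : Tendsto (fun x : ℕ => 4 + Real.log 16 / Real.log (root 4 x)) atTop (𝓝 4) := by
    have := (tendsto_const_nhds (x := Real.log 16)).div_atTop hlog
    simpa using this.const_add 4
  refine tendsto_of_tendsto_of_tendsto_of_le_of_le' tendsto_const_nhds h0 ?_ ?_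
  · filter_upwards [hlog.eventually_gt_atTop 0, hR.eventually_ge_atTop 1] with x h1 h2
    rw [le_div_iff₀ h1]
    have h3 : ((root 4 x : ℕ) : ℝ) ^ 4 ≤ x := by exact_mod_cast root_pow_le 4 x (by norm_num)
    have h4 : (0 : ℝ) < (root 4 x : ℝ) := by exact_mod_cast h2
    have h5 := Real.log_le_log (by positivity) h3
    rw [Real.log_pow] at h5
    exact_mod_cast h5
  · filter_upwards [hlog.eventually_gt_atTop 0, hR.eventually_ge_atTop 1,
      eventually_ge_atTop 1] with x h1 h2 hx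
    rw [div_le_iff₀ h1, add_mul, div_mul_cancel₀ _ h1.ne']
    have h3 : (x : ℝ) ≤ 16 * (root 4 x : ℝ) ^ 4 := by
      have h4 := (lt_root_pow 4 x (by norm_num)).le
      have h5 : (root 4 x + 1) ^ 4 ≤ (2 * root 4 x) ^ 4 := Nat.pow_le_pow_left (by omega) 4
      have h6 : x ≤ 16 * root 4 x ^ 4 := by
        calc x ≤ (2 * root 4 x) ^ 4 := h4.trans h5
          _ = 16 * root 4 x ^ 4 := by ring
      exact_mod_cast h6
    have h4 : (0 : ℝ) < (root 4 x : ℝ) := by exact_mod_cast h2
    have hx' : (0 : ℝ) < x := by exact_mod_cast hx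
    have h5 := Real.log_le_log hx' h3
    rw [Real.log_mul (by norm_num) (by positivity), Real.log_pow] at h5
    push_cast at h5
    linarith

theorem T2' : Tendsto (fun x : ℕ => l2 x / l2 (root 4 x)) atTop (𝓝 1) := by
  have hR := root_tendsto 4 (by norm_num)
  have hlog : Tendsto (fun x : ℕ => Real.log (root 4 x)) atTop atTop := tendsto_log_nat.comp hR
  have hl2 : Tendsto (fun x : ℕ => l2 (root 4 x)) atTop atTop := tendsto_l2.comp hR
  have h1 : Tendsto (fun x : ℕ => 1 + Real.log (Real.log x / Real.log (root 4 x)) / l2 (root 4 x))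
      atTop (𝓝 1) := by
    have h2 : Tendsto (fun x : ℕ => Real.log (Real.log x / Real.log (root 4 x))) atTop
        (𝓝 (Real.log 4)) := (Real.continuousAt_log (by norm_num)).tendsto.comp T1
    have h3 := h2.div_atTop hl2
    simpa using h3.const_add 1
  refine h1.congr' ?_
  filter_upwards [hlog.eventually_gt_atTop 0, hl2.eventually_gt_atTop 0,
    tendsto_log_nat.eventually_gt_atTop 0] with x h3 h4 h5
  rw [Real.log_div h5.ne' h3.ne']
  unfold l2 at h4 ⊢
  field_simp
  ring

theorem T3 : Tendsto (fun x : ℕ => (Real.log x / l2 x) ^ 2 * vv (root 4 x)) atTop (𝓝 16) := by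
  have h1 : Tendsto (fun x : ℕ => (Real.log x / Real.log (root 4 x)) ^ 2 *
      ((l2 x / l2 (root 4 x))⁻¹) ^ 2) atTop (𝓝 (4 ^ 2 * ((1 : ℝ)⁻¹) ^ 2)) :=
    (T1.pow 2).mul ((T2'.inv₀ one_ne_zero).pow 2)
  have e : (4 : ℝ) ^ 2 * ((1 : ℝ)⁻¹) ^ 2 = 16 := by norm_num
  rw [e] at h1
  refine h1.congr fun x => ?_
  unfold vv
  rw [inv_div]
  ring

/-! ## The set is infinite -/

theorem pinf {P : ℕ → Prop} (h : ∀ c : ℝ, ∃ N : ℕ, c < ∑ n ∈ range N, ind P n) :
    (Set.ofPred P).Infinite := by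
  intro hfin
  classical
  obtain ⟨N, hN⟩ := h (hfin.toFinset.card : ℝ)
  have e1 : ∑ n ∈ range N, ind P n = (((range N).filter P).card : ℝ) := by
    rw [Finset.card_filter]
    push_cast
    apply Finset.sum_congr rfl
    intro n _
    unfold ind
    split_ifs <;> rfl
  rw [e1] at hN
  have e2 : ((range N).filter P) ⊆ hfin.toFinset := by
    intro n hn
    rw [Finset.mem_filter] at hn
    rw [Set.Finite.mem_toFinset]
    exact hn.2
  have e3 : (((range N).filter P).card : ℝ) ≤ (hfin.toFinset.card : ℝ) := by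
    exact_mod_cast Finset.card_le_card e2
  linarith

theorem pthb (hD2 : DELTA2G) : PTHBG := by
  intro Z β a l hev hl b d hb hd
  have hR := root_tendsto 4 (by norm_num)
  have hvv := hR.eventually vv_ev
  -- infinite
  have hinf : (Set.ofPred (Pair 4 Z β a)).Infinite := by
    apply pinf
    intro c
    have hη : (0 : ℝ) < 1 / (|c| + 2) := by positivity
    obtain ⟨x, ⟨h1, -, -, h4⟩, h5, h6⟩ := ((hev _ hη).and hvv).exists
    refine ⟨x + 1, ?_⟩
    set W := WW Z (root 4 x) with hW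
    set v := vv (root 4 x) with hv
    have hc : (0 : ℝ) < |c| + 2 := by positivity
    have h7 : 3 * (|c| + 2) ≤ v * W := by
      have : 1 / (|c| + 2) * v * W = (v * W) / (|c| + 2) := by ring
      rw [this, le_div_iff₀ hc] at h4
      exact h4
    have hW0 : 0 < W := by
      by_contra hcon
      push Not at hcon
      nlinarith
    have h8 : v * W ≤ W := mul_le_of_le_one_left hW0.le h6
    have h9 : 1 / (|c| + 2) * v * W ≤ W / 2 := by
      have h10 : 1 / (|c| + 2) ≤ 1 / 2 := by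
        apply one_div_le_one_div_of_le (by norm_num)
        linarith [abs_nonneg c]
      have h11 : 1 / (|c| + 2) * v ≤ 1 / 2 * 1 :=
        mul_le_mul h10 h6 h5.le (by norm_num)
      calc 1 / (|c| + 2) * v * W ≤ 1 / 2 * 1 * W := mul_le_mul_of_nonneg_right h11 hW0.le
        _ = W / 2 := by ring
    have h12 := (abs_le.1 h1).1
    have h13 := le_abs_self c
    linarith
  set s : ℝ := if b = d then 1 else -1 with hs
  set A : ℕ → ℝ := fun x => (Real.log x / l2 x) ^ 2 with hA
  have hA0 : ∀ x, 0 ≤ A x := fun x => sq_nonneg _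
  -- the main term
  have hmain : Tendsto (fun x : ℕ => A x * DW Z (root 4 x)) atTop (𝓝 (16 * l)) := by
    have h1 := T3.mul (hl.comp hR)
    refine h1.congr' ?_
    filter_upwards [(tendsto_log_nat.comp hR).eventually_gt_atTop 0,
      (tendsto_l2.comp hR).eventually_gt_atTop 0] with x h3 h4
    have h3' : Real.log (root 4 x) ≠ 0 := ne_of_gt h3
    have h4' : l2 (root 4 x) ≠ 0 := ne_of_gt h4
    have h5 : vv (root 4 x) * (Real.log (root 4 x) / l2 (root 4 x)) ^ 2 = 1 := by
      unfold vv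
      rw [← mul_pow, div_mul_div_comm, mul_comm (l2 (root 4 x)), div_self (mul_ne_zero h3' h4'),
        one_pow]
    change (Real.log x / l2 x) ^ 2 * vv (root 4 x) *
      ((Real.log (root 4 x) / l2 (root 4 x)) ^ 2 * DW Z (root 4 x)) = A x * DW Z (root 4 x)
    calc (Real.log x / l2 x) ^ 2 * vv (root 4 x) *
          ((Real.log (root 4 x) / l2 (root 4 x)) ^ 2 * DW Z (root 4 x))
        = A x * (vv (root 4 x) * (Real.log (root 4 x) / l2 (root 4 x)) ^ 2) *
          DW Z (root 4 x) := by rw [hA]; ring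
      _ = A x * DW Z (root 4 x) := by rw [h5, mul_one]
  -- the difference
  have hdiff : Tendsto (fun x : ℕ => A x * (delta (Pair 4 Z β a) x b d - 1 / 2) -
      s / 2 * (A x * DW Z (root 4 x))) atTop (𝓝 0) := by
    rw [Metric.tendsto_nhds]
    intro ε hε
    set η : ℝ := min (1 / 100) (ε / 70) with hη
    have hη0 : 0 < η := lt_min (by norm_num) (by positivity)
    have hη1 : η ≤ 1 / 100 := min_le_left _ _
    have hη2 : η ≤ ε / 70 := min_le_right _ _
    have hT3 := (tendsto_order.1 T3).2 17 (by norm_num)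
    filter_upwards [hev η hη0, hvv, hT3] with x h1 h2 h3
    obtain ⟨g1, g2, g3, g4⟩ := h1
    obtain ⟨v0, v1⟩ := h2
    have hW0 : 0 < WW Z (root 4 x) := by
      by_contra hcon
      push Not at hcon
      have : η * vv (root 4 x) * WW Z (root 4 x) ≤ 0 :=
        mul_nonpos_of_nonneg_of_nonpos (by positivity) hcon
      linarith
    have he1 : η * vv (root 4 x) ≤ 1 / 100 := by
      calc η * vv (root 4 x) ≤ η * 1 := mul_le_mul_of_nonneg_left v1 hη0.le
        _ ≤ 1 / 100 := by linarith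
    have h4 := hD2 (Pair 4 Z β a) hinf (fun n hn => hn.1) x (η * vv (root 4 x))
      (WW Z (root 4 x)) (DW Z (root 4 x)) (by positivity) he1 (abs_DW_le Z _ hW0) g4 g1 g2 g3
      b d hb hd
    rw [Real.dist_eq, sub_zero]
    have e1 : A x * (delta (Pair 4 Z β a) x b d - 1 / 2) - s / 2 * (A x * DW Z (root 4 x)) =
        A x * (delta (Pair 4 Z β a) x b d - 1 / 2 - s * (DW Z (root 4 x) / 2)) := by ring
    rw [e1, abs_mul, abs_of_nonneg (hA0 x)]
    have h5 : A x * vv (root 4 x) < 17 := h3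
    calc A x * |delta (Pair 4 Z β a) x b d - 1 / 2 - s * (DW Z (root 4 x) / 2)|
        ≤ A x * (4 * (η * vv (root 4 x))) := mul_le_mul_of_nonneg_left h4 (hA0 x)
      _ = 4 * η * (A x * vv (root 4 x)) := by ring
      _ ≤ 4 * η * 17 := mul_le_mul_of_nonneg_left h5.le (by positivity)
      _ < ε := by linarith
  have hfin := hdiff.add (hmain.const_mul (s / 2))
  have e2 : 0 + s / 2 * (16 * l) = s * (8 * l) := by ring
  rw [e2] at hfin
  refine hfin.congr fun x => ?_
  ring

end Pool.Agent.Helper44.TB
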